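import Pool.Agent.H21.RE.Near

/-!
# Asymptotic laws for products with real exponents, abstract form
-/

set_option autoImplicit false

namespace Pool.Agent.H21.RE

open MeasureTheory Filter Topology Set
open Pool.Agent.H21.RC
open Pool.Agent.W263.BSD (LInt lap lapC ell ell_LInt ell_meas ell_nonneg ell_mono ell_sub_log abel_le)

/-- `Q` is positive, and its logarithm is `f (log x) + k` for large `x` -/
structure Lg (Q f : ℝ → ℝ) (k : ℝ) : Prop where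
  pos : ∀ x, 0 < Q x
  log : ∃ U : ℝ, ∀ u, U ≤ u → Real.log (Q (Real.exp u)) = f u + k

variable {Q f : ℝ → ℝ} {k : ℝ}

theorem Lg.log_ev (L : Lg Q f k) :
    ∀ᶠ x : ℝ in atTop, Real.log (Q x) = f (Real.log x) + k := by
  obtain ⟨U, hU⟩ := L.log
  filter_upwards [Real.tendsto_log_atTop.eventually_ge_atTop U, eventually_gt_atTop 0] with x h1 h2
  have := hU _ h1
  rwa [Real.exp_log h2] at this

theorem slow_trQ (L : Lg Q f k) (h : ∀ ε : ℝ, 0 < ε → ∃ δ : ℝ, 0 < δ ∧ ∀ᶠ x : ℝ in atTop, ∀ y, x ≤ y →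
      y ≤ x ^ (1 + δ) → Q y ≤ (1 + ε) * Q x) :
    ∀ ε > 0, ∃ δ > 0, ∃ u0 : ℝ, ∀ u v, u0 ≤ u → u ≤ v → v ≤ (1 + δ) * u → f v ≤ f u + ε := by
  intro ε hε
  obtain ⟨U, hU⟩ := L.log
  obtain ⟨δ, hδ, h1⟩ := h ε hε
  obtain ⟨X, hX⟩ := eventually_atTop.mp h1
  refine ⟨δ, hδ, max U (Real.log (max X 1)), fun u v h2 h3 h4 => ?_⟩
  have hu4 : U ≤ u := (le_max_left _ _).trans h2
  have h5 : X ≤ Real.exp u := by
    have e1 : Real.log (max X 1) ≤ u := (le_max_right _ _).trans h2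
    have e2 : 0 < max X 1 := lt_of_lt_of_le one_pos (le_max_right _ _)
    rw [Real.log_le_iff_le_exp e2] at e1
    exact (le_max_left _ _).trans e1
  have h6 := hX (Real.exp u) h5 (Real.exp v) (Real.exp_le_exp.mpr h3) (by
    rw [← Real.exp_mul]
    exact Real.exp_le_exp.mpr (by linarith))
  have h7 := Real.log_le_log (L.pos _) h6
  rw [Real.log_mul (by positivity) (L.pos _).ne', hU u hu4, hU v (hu4.trans h3)] at h7
  have h8 := Real.log_le_sub_one_of_pos (show 0 < 1 + ε by linarith)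
  linarith

theorem slow_trQ_lower (L : Lg Q f k) (h : ∀ ε : ℝ, 0 < ε → ∃ δ : ℝ, 0 < δ ∧ ∀ᶠ x : ℝ in atTop,
      ∀ y, x ≤ y → y ≤ x ^ (1 + δ) → Q x ≤ (1 + ε) * Q y) :
    ∀ ε > 0, ∃ δ > 0, ∃ u0 : ℝ, ∀ u v, u0 ≤ u → u ≤ v → v ≤ (1 + δ) * u → f u - ε ≤ f v := by
  intro ε hε
  obtain ⟨U, hU⟩ := L.log
  obtain ⟨δ, hδ, h1⟩ := h ε hε
  obtain ⟨X, hX⟩ := eventually_atTop.mp h1
  refine ⟨δ, hδ, max U (Real.log (max X 1)), fun u v h2 h3 h4 => ?_⟩
  have hu4 : U ≤ u := (le_max_left _ _).trans h2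
  have h5 : X ≤ Real.exp u := by
    have e1 : Real.log (max X 1) ≤ u := (le_max_right _ _).trans h2
    have e2 : 0 < max X 1 := lt_of_lt_of_le one_pos (le_max_right _ _)
    rw [Real.log_le_iff_le_exp e2] at e1
    exact (le_max_left _ _).trans e1
  have h6 := hX (Real.exp u) h5 (Real.exp v) (Real.exp_le_exp.mpr h3) (by
    rw [← Real.exp_mul]
    exact Real.exp_le_exp.mpr (by linarith))
  have h7 := Real.log_le_log (L.pos _) h6
  rw [Real.log_mul (by positivity) (L.pos _).ne', hU u hu4, hU v (hu4.trans h3)] at h7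
  have h8 := Real.log_le_sub_one_of_pos (show 0 < 1 + ε by linarith)
  linarith

theorem dbl_trQ (L : Lg Q f k) {K : ℝ} (h : ∀ᶠ x : ℝ in atTop, ∀ y, x ≤ y → y ≤ x ^ 2 →
      Q y ≤ K * Q x) :
    ∃ K' u0 : ℝ, 0 ≤ K' ∧ 1 ≤ u0 ∧ ∀ u v, u0 ≤ u → u ≤ v → v ≤ 2 * u → f v ≤ f u + K' := by
  obtain ⟨U, hU⟩ := L.log
  obtain ⟨X, hX⟩ := eventually_atTop.mp h
  have hK1 : (1 : ℝ) ≤ max K 1 := le_max_right _ _
  refine ⟨Real.log (max K 1), max 1 (max U (Real.log (max X 1))), Real.log_nonneg hK1,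
    le_max_left _ _, fun u v h2 h3 h4 => ?_⟩
  have hu4 : U ≤ u := ((le_max_left _ _).trans (le_max_right _ _)).trans h2
  have h5 : X ≤ Real.exp u := by
    have e1 : Real.log (max X 1) ≤ u := ((le_max_right _ _).trans (le_max_right _ _)).trans h2
    have e2 : 0 < max X 1 := lt_of_lt_of_le one_pos (le_max_right _ _)
    rw [Real.log_le_iff_le_exp e2] at e1
    exact (le_max_left _ _).trans e1
  have h6 := hX (Real.exp u) h5 (Real.exp v) (Real.exp_le_exp.mpr h3) (by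
    rw [← Real.exp_nat_mul]
    exact Real.exp_le_exp.mpr (by push_cast; linarith))
  have h6' := h6.trans (mul_le_mul_of_nonneg_right (le_max_left K 1) (L.pos (Real.exp u)).le)
  have h7 := Real.log_le_log (L.pos _) h6'
  rw [Real.log_mul (by positivity) (L.pos _).ne', hU u hu4, hU v (hu4.trans h3)] at h7
  linarith

theorem dbl_trQ_lower (L : Lg Q f k) {K : ℝ} (h : ∀ᶠ x : ℝ in atTop, ∀ y, x ≤ y → y ≤ x ^ 2 →
      Q x ≤ K * Q y) :
    ∃ K' u0 : ℝ, 0 ≤ K' ∧ 1 ≤ u0 ∧ ∀ u v, u0 ≤ u → u ≤ v → v ≤ 2 * u → f u - K' ≤ f v := by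
  obtain ⟨U, hU⟩ := L.log
  obtain ⟨X, hX⟩ := eventually_atTop.mp h
  have hK1 : (1 : ℝ) ≤ max K 1 := le_max_right _ _
  refine ⟨Real.log (max K 1), max 1 (max U (Real.log (max X 1))), Real.log_nonneg hK1,
    le_max_left _ _, fun u v h2 h3 h4 => ?_⟩
  have hu4 : U ≤ u := ((le_max_left _ _).trans (le_max_right _ _)).trans h2
  have h5 : X ≤ Real.exp u := by
    have e1 : Real.log (max X 1) ≤ u := ((le_max_right _ _).trans (le_max_right _ _)).trans h2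
    have e2 : 0 < max X 1 := lt_of_lt_of_le one_pos (le_max_right _ _)
    rw [Real.log_le_iff_le_exp e2] at e1
    exact (le_max_left _ _).trans e1
  have h6 := hX (Real.exp u) h5 (Real.exp v) (Real.exp_le_exp.mpr h3) (by
    rw [← Real.exp_nat_mul]
    exact Real.exp_le_exp.mpr (by push_cast; linarith))
  have h6' := h6.trans (mul_le_mul_of_nonneg_right (le_max_left K 1) (L.pos (Real.exp v)).le)
  have h7 := Real.log_le_log (L.pos _) h6'
  rw [Real.log_mul (by positivity) (L.pos _).ne', hU u hu4, hU v (hu4.trans h3)] at h7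
  linarith

theorem log_orderQ (hQ : ∀ x, 0 < Q x) {ρ c C : ℝ} (hc : 0 < c) (h : ∀ᶠ x : ℝ in atTop,
    c * (Real.log x) ^ ρ ≤ Q x ∧ Q x ≤ C * (Real.log x) ^ ρ) :
    ∃ M : ℝ, ∀ᶠ x : ℝ in atTop, |Real.log (Q x) - ρ * Real.log (Real.log x)| ≤ M := by
  refine ⟨|Real.log c| + |Real.log C|, ?_⟩
  filter_upwards [h, Real.tendsto_log_atTop.eventually_gt_atTop 0] with x ⟨h1, h2⟩ h3
  have h4 : 0 < (Real.log x) ^ ρ := Real.rpow_pos_of_pos h3 _
  have hC : 0 < C := by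
    have h5 : 0 < C * (Real.log x) ^ ρ := lt_of_lt_of_le (hQ x) h2
    exact (mul_pos_iff_of_pos_right h4).1 h5
  have h5 := Real.log_le_log (mul_pos hc h4) h1
  have h6 := Real.log_le_log (hQ x) h2
  rw [Real.log_mul hc.ne' h4.ne', Real.log_rpow h3] at h5
  rw [Real.log_mul hC.ne' h4.ne', Real.log_rpow h3] at h6
  have h7 := neg_abs_le (Real.log c)
  have h8 := le_abs_self (Real.log C)
  have h9 := abs_nonneg (Real.log c)
  have h10 := abs_nonneg (Real.log C)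
  rw [abs_le]
  constructor <;> linarith

theorem order_logQ (hQ : ∀ x, 0 < Q x) {ρ M : ℝ}
    (h : ∀ᶠ x : ℝ in atTop, |Real.log (Q x) - ρ * Real.log (Real.log x)| ≤ M) :
    ∃ c C : ℝ, 0 < c ∧ ∀ᶠ x : ℝ in atTop,
      c * (Real.log x) ^ ρ ≤ Q x ∧ Q x ≤ C * (Real.log x) ^ ρ := by
  refine ⟨Real.exp (-M), Real.exp M, Real.exp_pos _, ?_⟩
  filter_upwards [h, Real.tendsto_log_atTop.eventually_gt_atTop 0] with x h1 h3
  have h4 : 0 < (Real.log x) ^ ρ := Real.rpow_pos_of_pos h3 _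
  obtain ⟨h5, h6⟩ := abs_le.1 h1
  constructor
  · rw [← Real.log_le_log_iff (mul_pos (Real.exp_pos _) h4) (hQ x),
      Real.log_mul (Real.exp_pos _).ne' h4.ne', Real.log_exp, Real.log_rpow h3]
    linarith
  · rw [← Real.log_le_log_iff (hQ x) (mul_pos (Real.exp_pos _) h4),
      Real.log_mul (Real.exp_pos _).ne' h4.ne', Real.log_exp, Real.log_rpow h3]
    linarith

theorem double_log {x y : ℝ} (hx : 1 < x) (h1 : x ≤ y) (h2 : y ≤ x ^ 2) :
    |Real.log (Real.log y) - Real.log (Real.log x)| ≤ Real.log 2 := by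
  have hx0 : 0 < Real.log x := Real.log_pos hx
  have hxy : Real.log x ≤ Real.log y := Real.log_le_log (by linarith) h1
  have hy : Real.log y ≤ 2 * Real.log x := by
    have := Real.log_le_log (by linarith) h2
    rwa [Real.log_pow] at this
  have h3 := Real.log_le_log hx0 hxy
  have h4 := Real.log_le_log (by linarith) hy
  rw [Real.log_mul two_ne_zero hx0.ne'] at h4
  rw [abs_le]
  constructor
  · linarith [Real.log_nonneg (show (1 : ℝ) ≤ 2 by norm_num)]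
  · linarith

theorem dbl_of_orderQ (hQ : ∀ x, 0 < Q x) {ρ M : ℝ}
    (h : ∀ᶠ x : ℝ in atTop, |Real.log (Q x) - ρ * Real.log (Real.log x)| ≤ M) :
    ∃ K : ℝ, ∀ᶠ x : ℝ in atTop, ∀ y, x ≤ y → y ≤ x ^ 2 → Q y ≤ K * Q x ∧ Q x ≤ K * Q y := by
  obtain ⟨X, hX⟩ := eventually_atTop.1 h
  refine ⟨Real.exp (2 * M + |ρ| * Real.log 2), ?_⟩
  filter_upwards [eventually_ge_atTop X, eventually_gt_atTop 1] with x h1 h2 y h3 h4
  have e1 := abs_le.1 (hX x h1)
  have e2 := abs_le.1 (hX y (h1.trans h3))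
  have e3 : |ρ * (Real.log (Real.log y) - Real.log (Real.log x))| ≤ |ρ| * Real.log 2 := by
    rw [abs_mul]
    exact mul_le_mul_of_nonneg_left (double_log h2 h3 h4) (abs_nonneg _)
  have e4 := abs_le.1 e3
  constructor
  · rw [← Real.log_le_log_iff (hQ y) (mul_pos (Real.exp_pos _) (hQ x)),
      Real.log_mul (Real.exp_pos _).ne' (hQ x).ne', Real.log_exp]
    linarith [e1.1, e1.2, e2.1, e2.2, e4.1, e4.2]
  · rw [← Real.log_le_log_iff (hQ x) (mul_pos (Real.exp_pos _) (hQ y)),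
      Real.log_mul (Real.exp_pos _).ne' (hQ y).ne', Real.log_exp]
    linarith [e1.1, e1.2, e2.1, e2.2, e4.1, e4.2]

theorem slow_of_limQ (hQ : ∀ x, 0 < Q x) {ρ K : ℝ}
    (h : Tendsto (fun x : ℝ => Real.log (Q x) - ρ * Real.log (Real.log x)) atTop (𝓝 K))
    {ε : ℝ} (hε : 0 < ε) : ∃ δ : ℝ, 0 < δ ∧ ∀ᶠ x : ℝ in atTop, ∀ y, x ≤ y → y ≤ x ^ (1 + δ) →
      Q y ≤ (1 + ε) * Q x ∧ Q x ≤ (1 + ε) * Q y := by
  set η : ℝ := Real.log (1 + ε) / 3 with hη
  have hη0 : 0 < η := by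
    have := Real.log_pos (show 1 < 1 + ε by linarith)
    positivity
  obtain ⟨X, hX⟩ := Metric.tendsto_atTop.mp h η hη0
  refine ⟨η / (|ρ| + 1), by positivity, ?_⟩
  filter_upwards [eventually_ge_atTop X, eventually_gt_atTop 1] with x h1 h2 y h3 h4
  have e1 := hX x h1
  have e2 := hX y (h1.trans h3)
  rw [Real.dist_eq] at e1 e2
  have hx0 : 0 < Real.log x := Real.log_pos h2
  have hxy : Real.log x ≤ Real.log y := Real.log_le_log (by linarith) h3
  have hy : Real.log y ≤ (1 + η / (|ρ| + 1)) * Real.log x := by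
    have := Real.log_le_log (by linarith) h4
    rwa [Real.log_rpow (by linarith)] at this
  have e3 := Real.log_le_log hx0 hxy
  have e4 : Real.log (Real.log y) ≤ Real.log (Real.log x) + η / (|ρ| + 1) := by
    have a1 := Real.log_le_log (by linarith) hy
    rw [Real.log_mul (by positivity) hx0.ne'] at a1
    have a2 := Real.log_le_sub_one_of_pos (show 0 < 1 + η / (|ρ| + 1) by positivity)
    linarith
  have e5 : |ρ * (Real.log (Real.log y) - Real.log (Real.log x))| ≤ η := by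
    rw [abs_mul, abs_of_nonneg (show 0 ≤ Real.log (Real.log y) - Real.log (Real.log x) by linarith)]
    calc |ρ| * (Real.log (Real.log y) - Real.log (Real.log x)) ≤ |ρ| * (η / (|ρ| + 1)) :=
          mul_le_mul_of_nonneg_left (by linarith) (abs_nonneg _)
      _ ≤ η := by
        rw [mul_div_assoc', div_le_iff₀ (by positivity)]
        nlinarith [abs_nonneg ρ]
  have a1 := abs_lt.1 e1
  have a2 := abs_lt.1 e2
  have a3 := abs_le.1 e5
  have a4 : Real.log (1 + ε) = 3 * η := by rw [hη]; ring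
  have h1ε : 0 < 1 + ε := by linarith
  constructor
  · rw [← Real.log_le_log_iff (hQ y) (mul_pos h1ε (hQ x)), Real.log_mul h1ε.ne' (hQ x).ne', a4]
    linarith [a1.1, a1.2, a2.1, a2.2, a3.1, a3.2]
  · rw [← Real.log_le_log_iff (hQ x) (mul_pos h1ε (hQ y)), Real.log_mul h1ε.ne' (hQ y).ne', a4]
    linarith [a1.1, a1.2, a2.1, a2.2, a3.1, a3.2]

theorem quot_limQ (hQ : ∀ x, 0 < Q x) {ρ C : ℝ} (hC : 0 < C)
    (h : Tendsto (fun x : ℝ => Real.log (Q x) - ρ * Real.log (Real.log x)) atTop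
      (𝓝 (Real.log C))) :
    Tendsto (fun x : ℝ => Q x / (Real.log x) ^ ρ) atTop (𝓝 C) := by
  have h1 := h.rexp
  rw [Real.exp_log hC] at h1
  refine h1.congr' ?_
  filter_upwards [Real.tendsto_log_atTop.eventually_gt_atTop 0] with x hx
  rw [Real.exp_sub, Real.exp_log (hQ x), Real.rpow_def_of_pos hx, mul_comm ρ]

theorem lim_quotQ (hQ : ∀ x, 0 < Q x) {ρ C : ℝ} (hC : C ≠ 0)
    (h : Tendsto (fun x : ℝ => Q x / (Real.log x) ^ ρ) atTop (𝓝 C)) :
    0 < C ∧ Tendsto (fun x : ℝ => Real.log (Q x) - ρ * Real.log (Real.log x)) atTop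
      (𝓝 (Real.log C)) := by
  have hC0 : 0 ≤ C := by
    refine ge_of_tendsto h ?_
    filter_upwards [Real.tendsto_log_atTop.eventually_gt_atTop 0] with x hx
    exact (div_pos (hQ x) (Real.rpow_pos_of_pos hx _)).le
  refine ⟨lt_of_le_of_ne hC0 hC.symm, ?_⟩
  refine (h.log hC).congr' ?_
  filter_upwards [Real.tendsto_log_atTop.eventually_gt_atTop 0] with x hx
  rw [Real.log_div (hQ x).ne' (Real.rpow_pos_of_pos hx _).ne', Real.log_rpow hx]

/-! ### the laws -/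

variable {ι : Type} [Fintype ι] {a : ι → ℝ → ℝ} {Φ G : ι → ℂ → ℂ} {c0 : ℝ} {r : ι → ℕ} {c : ι → ℝ}
  {w : ι → ℝ} {sc : ι → ℝ → ℝ} {σ T : ℝ}

theorem bd_comb (L : Lg Q (comb w a) k) {ρ M : ℝ}
    (h : ∀ᶠ x : ℝ in atTop, |Real.log (Q x) - ρ * Real.log (Real.log x)| ≤ M) :
    ∀ᶠ u : ℝ in atTop, |comb w a u - ρ * Real.log u| ≤ M + |k| := by
  obtain ⟨U, hU⟩ := L.log
  filter_upwards [Real.tendsto_exp_atTop.eventually h, eventually_ge_atTop U] with u h1 h2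
  rw [hU u h2, Real.log_exp] at h1
  have e : comb w a u - ρ * Real.log u = (comb w a u + k - ρ * Real.log u) - k := by ring
  rw [e]
  exact (abs_sub _ _).trans (add_le_add h1 le_rfl)

theorem comb_bd (L : Lg Q (comb w a) k) {ρ M : ℝ}
    (h : ∀ u, 0 < u → |comb w a u - ρ * ell u| ≤ M) :
    ∃ M' : ℝ, ∀ᶠ x : ℝ in atTop, |Real.log (Q x) - ρ * Real.log (Real.log x)| ≤ M' := by
  refine ⟨M + |k| + |ρ|, ?_⟩
  filter_upwards [L.log_ev, Real.tendsto_log_atTop.eventually ell_close,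
    Real.tendsto_log_atTop.eventually_gt_atTop 0] with x h1 h2 h3
  rw [h1]
  have h4 := h (Real.log x) h3
  have h5 : |ρ * (ell (Real.log x) - Real.log (Real.log x))| ≤ |ρ| := by
    rw [abs_mul]
    exact mul_le_of_le_one_right (abs_nonneg _) h2
  have h6 := abs_le.1 h4
  have h7 := abs_le.1 h5
  have h8 := neg_abs_le k
  have h9 := le_abs_self k
  rw [abs_le]
  constructor <;> linarith [h6.1, h6.2, h7.1, h7.2]

theorem lim_fin (L : Lg Q (comb w a) k) (hs : Tendsto (comb w sc) atTop (𝓝 σ)) {K : ℝ}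
    (h : Tendsto (ff w a sc r) atTop (𝓝 K)) :
    Tendsto (fun x : ℝ => Real.log (Q x) - RR w r * Real.log (Real.log x)) atTop
      (𝓝 (K + k + σ)) := by
  have h1 := ((h.add hs).add (ell_sub_log.const_mul (RR w r))).comp Real.tendsto_log_atTop
  rw [mul_zero, add_zero] at h1
  have h2 := h1.add_const k
  have e : K + σ + k = K + k + σ := by ring
  rw [e] at h2
  refine h2.congr' ?_
  filter_upwards [L.log_ev] with x hx
  simp only [Function.comp_apply]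
  rw [hx]
  unfold ff
  ring

/-- **Asymptotic formulas.** -/
theorem NearG.lead (H : NearG a Φ G c0 r c) (C : Cor G sc) (hs : Tendsto (comb w sc) atTop (𝓝 σ))
    (L : Lg Q (comb w a) k) (hT : 0 < T) (hTl : Real.log T = KK w r c + k + σ) :
    List.TFAE [
      ∃ C ρ : ℝ, C ≠ 0 ∧ Tendsto (fun x : ℝ => Q x / (Real.log x) ^ ρ) atTop (𝓝 C),
      Tendsto (fun x : ℝ => Q x / (Real.log x) ^ RR w r) atTop (𝓝 T),
      (∀ x : ℝ, 0 < x → 0 ≤ mult w Φ x) ∧ ∀ ε : ℝ, 0 < ε → ∃ δ : ℝ, 0 < δ ∧ ∀ᶠ x : ℝ in atTop, ∀ y,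
        x ≤ y → y ≤ x ^ (1 + δ) → Q y ≤ (1 + ε) * Q x,
      (∀ x : ℝ, 0 < x → mult w Φ x ≤ 0) ∧ ∀ ε : ℝ, 0 < ε → ∃ δ : ℝ, 0 < δ ∧ ∀ᶠ x : ℝ in atTop, ∀ y,
        x ≤ y → y ≤ x ^ (1 + δ) → Q x ≤ (1 + ε) * Q y] := by
  have hfin : Tendsto (ff w a sc r) atTop (𝓝 (KK w r c)) →
      Tendsto (fun x : ℝ => Q x / (Real.log x) ^ RR w r) atTop (𝓝 T) := fun h => by
    refine quot_limQ L.pos hT ?_
    rw [hTl]
    exact lim_fin L hs h
  have key : (∃ C ρ : ℝ, C ≠ 0 ∧ Tendsto (fun x : ℝ => Q x / (Real.log x) ^ ρ) atTop (𝓝 C)) →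
      (∀ x : ℝ, 0 < x → mult w Φ x = 0) ∧ ∀ ε : ℝ, 0 < ε → ∃ δ : ℝ, 0 < δ ∧ ∀ᶠ x : ℝ in atTop, ∀ y,
        x ≤ y → y ≤ x ^ (1 + δ) → Q y ≤ (1 + ε) * Q x ∧ Q x ≤ (1 + ε) * Q y := by
    rintro ⟨C, ρ, hC, h⟩
    obtain ⟨-, h1⟩ := lim_quotQ L.pos hC h
    refine ⟨fun x hx => ?_, fun ε hε => slow_of_limQ L.pos h1 hε⟩
    have h2 : ∀ᶠ x : ℝ in atTop, |Real.log (Q x) - ρ * Real.log (Real.log x)| ≤
        |Real.log C| + 1 := by
      filter_upwards [h1.abs.eventually (gt_mem_nhds (show |Real.log C| < |Real.log C| + 1 by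
        linarith))] with x hx using hx.le
    exact H.cen.F.mult_zero le_rfl (H.order_eq_of (bd_comb L h2)).1 (by rwa [Complex.ofReal_re])
  tfae_have 1 → 3 := by
    intro h
    obtain ⟨h1, h2⟩ := key h
    refine ⟨fun s hs => (h1 s hs).ge, fun ε hε => ?_⟩
    obtain ⟨δ, hδ, h3⟩ := h2 ε hε
    exact ⟨δ, hδ, h3.mono fun x hx y e1 e2 => (hx y e1 e2).1⟩
  tfae_have 1 → 4 := by
    intro h
    obtain ⟨h1, h2⟩ := key h
    refine ⟨fun s hs => (h1 s hs).le, fun ε hε => ?_⟩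
    obtain ⟨δ, hδ, h3⟩ := h2 ε hε
    exact ⟨δ, hδ, h3.mono fun x hx y e1 e2 => (hx y e1 e2).2⟩
  tfae_have 3 → 2 := fun h => hfin (H.lead_upper C h.1 (slow_trQ L h.2))
  tfae_have 4 → 2 := fun h => hfin (H.lead_lower C h.1 (slow_trQ_lower L h.2))
  tfae_have 2 → 1 := fun h => ⟨_, _, hT.ne', h⟩
  tfae_finish

/-- uniqueness of the exponent and of the constant -/
theorem NearG.unique (H : NearG a Φ G c0 r c) (C : Cor G sc) (hs : Tendsto (comb w sc) atTop (𝓝 σ))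
    (L : Lg Q (comb w a) k) (hT : 0 < T) (hTl : Real.log T = KK w r c + k + σ) {C' ρ : ℝ}
    (hC : C' ≠ 0) (h : Tendsto (fun x : ℝ => Q x / (Real.log x) ^ ρ) atTop (𝓝 C')) :
    ρ = RR w r ∧ C' = T ∧ ∀ s : ℂ, 0 < s.re → mult w Φ s = 0 := by
  obtain ⟨-, h1⟩ := lim_quotQ L.pos hC h
  have h2 : ∀ᶠ x : ℝ in atTop, |Real.log (Q x) - ρ * Real.log (Real.log x)| ≤
      |Real.log C'| + 1 := by
    filter_upwards [h1.abs.eventually (gt_mem_nhds (show |Real.log C'| < |Real.log C'| + 1 by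
      linarith))] with x hx using hx.le
  obtain ⟨h3, h4⟩ := H.order_eq_of (bd_comb L h2)
  have key : (∃ C ρ : ℝ, C ≠ 0 ∧ Tendsto (fun x : ℝ => Q x / (Real.log x) ^ ρ) atTop (𝓝 C)) →
      Tendsto (fun x : ℝ => Q x / (Real.log x) ^ RR w r) atTop (𝓝 T) :=
    ((H.lead C hs L hT hTl).out 0 1).1
  have h5 := key ⟨C', ρ, hC, h⟩
  rw [h4] at h5
  exact ⟨h4.symm, tendsto_nhds_unique h h5, fun s hs => H.cen.F.mult_zero le_rfl h3 hs⟩

/-- **Orders of magnitude.** -/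
theorem NearG.order (H : NearG a Φ G c0 r c) (L : Lg Q (comb w a) k) :
    List.TFAE [
      ∃ ρ c C : ℝ, 0 < c ∧ ∀ᶠ x : ℝ in atTop,
        c * (Real.log x) ^ ρ ≤ Q x ∧ Q x ≤ C * (Real.log x) ^ ρ,
      ∃ c C : ℝ, 0 < c ∧ ∀ᶠ x : ℝ in atTop,
        c * (Real.log x) ^ RR w r ≤ Q x ∧ Q x ≤ C * (Real.log x) ^ RR w r,
      (∀ x : ℝ, 0 < x → 0 ≤ mult w Φ x) ∧ ∃ K : ℝ, ∀ᶠ x : ℝ in atTop, ∀ y, x ≤ y → y ≤ x ^ 2 →
        Q y ≤ K * Q x,
      (∀ x : ℝ, 0 < x → mult w Φ x ≤ 0) ∧ ∃ K : ℝ, ∀ᶠ x : ℝ in atTop, ∀ y, x ≤ y → y ≤ x ^ 2 →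
        Q x ≤ K * Q y] := by
  have key : (∃ ρ c C : ℝ, 0 < c ∧ ∀ᶠ x : ℝ in atTop,
        c * (Real.log x) ^ ρ ≤ Q x ∧ Q x ≤ C * (Real.log x) ^ ρ) →
      (∀ x : ℝ, 0 < x → mult w Φ x = 0) ∧ ∃ K : ℝ, ∀ᶠ x : ℝ in atTop, ∀ y, x ≤ y → y ≤ x ^ 2 →
        Q y ≤ K * Q x ∧ Q x ≤ K * Q y := by
    rintro ⟨ρ, c, C, hc, h⟩
    obtain ⟨M, hM⟩ := log_orderQ L.pos hc h
    refine ⟨fun x hx => ?_, dbl_of_orderQ L.pos hM⟩
    exact H.cen.F.mult_zero le_rfl (H.order_eq_of (bd_comb L hM)).1 (by rwa [Complex.ofReal_re])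
  tfae_have 2 → 1 := fun ⟨c, C, h⟩ => ⟨_, c, C, h⟩
  tfae_have 1 → 3 := by
    intro h
    obtain ⟨h1, K, h2⟩ := key h
    exact ⟨fun s hs => (h1 s hs).ge, K, h2.mono fun x hx y e1 e2 => (hx y e1 e2).1⟩
  tfae_have 1 → 4 := by
    intro h
    obtain ⟨h1, K, h2⟩ := key h
    exact ⟨fun s hs => (h1 s hs).le, K, h2.mono fun x hx y e1 e2 => (hx y e1 e2).2⟩
  tfae_have 3 → 2 := by
    rintro ⟨h1, K, h2⟩
    obtain ⟨K', u0, hK', hu0, h3⟩ := dbl_trQ L h2
    obtain ⟨-, M, hM⟩ := H.order_upper h1 hK' hu0 h3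
    obtain ⟨M', hM'⟩ := comb_bd L hM
    exact order_logQ L.pos hM'
  tfae_have 4 → 2 := by
    rintro ⟨h1, K, h2⟩
    obtain ⟨K', u0, hK', hu0, h3⟩ := dbl_trQ_lower L h2
    obtain ⟨-, M, hM⟩ := H.order_lower h1 hK' hu0 h3
    obtain ⟨M', hM'⟩ := comb_bd L hM
    exact order_logQ L.pos hM'
  tfae_finish

theorem upperQ_pos (hQ : ∀ x, 0 < Q x) {ρ C : ℝ}
    (h : ∀ᶠ x : ℝ in atTop, Q x ≤ C * (Real.log x) ^ ρ) :
    0 < C ∧ ∀ᶠ x : ℝ in atTop, Real.log (Q x) ≤ ρ * Real.log (Real.log x) + Real.log C := by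
  have hC : 0 < C := by
    obtain ⟨x, h1, h2⟩ := (h.and (Real.tendsto_log_atTop.eventually_gt_atTop 0)).exists
    have h4 : 0 < (Real.log x) ^ ρ := Real.rpow_pos_of_pos h2 _
    have h5 : 0 < C * (Real.log x) ^ ρ := lt_of_lt_of_le (hQ x) h1
    exact (mul_pos_iff_of_pos_right h4).1 h5
  refine ⟨hC, ?_⟩
  filter_upwards [h, Real.tendsto_log_atTop.eventually_gt_atTop 0] with x h1 h2
  have h4 : 0 < (Real.log x) ^ ρ := Real.rpow_pos_of_pos h2 _
  have h5 := Real.log_le_log (hQ x) h1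
  rw [Real.log_mul hC.ne' h4.ne', Real.log_rpow h2] at h5
  linarith

/-- **One-sided bounds.** -/
theorem NearG.upper (H : NearG a Φ G c0 r c) (L : Lg Q (comb w a) k)
    (hsg : ∀ x : ℝ, 0 < x → 0 ≤ mult w Φ x) {ρ C' : ℝ}
    (h : ∀ᶠ x : ℝ in atTop, Q x ≤ C' * (Real.log x) ^ ρ) :
    (∀ s : ℂ, 0 < s.re → mult w Φ s = 0) ∧ RR w r ≤ ρ ∧
      ∀ {sc : ι → ℝ → ℝ} {σ T : ℝ}, Cor G sc → Tendsto (comb w sc) atTop (𝓝 σ) → 0 < T →
        Real.log T = KK w r c + k + σ → RR w r = ρ → T ≤ C' := by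
  obtain ⟨hC, hlog⟩ := upperQ_pos L.pos h
  obtain ⟨U0, hU0⟩ := L.log
  have hu : ∀ᶠ u : ℝ in atTop, comb w a u ≤ ρ * Real.log u + (Real.log C' - k) := by
    filter_upwards [Real.tendsto_exp_atTop.eventually hlog, eventually_ge_atTop U0] with u h1 h2
    rw [hU0 u h2, Real.log_exp] at h1
    linarith
  obtain ⟨B, hB0, hB⟩ := H.kappa_bound hu
  have hconv : ∀ x > 0, LInt (comb w a) x := H.conv_upper le_rfl hsg (kappa_sub hB)
  refine ⟨fun s hs => H.cen.F.mult_zero le_rfl hconv hs, H.order_le_of hconv hB, ?_⟩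
  intro sc σ T Cs hs hT hTl hR
  have hab := H.abel_limit (w := w) Cs hconv
  have hkey : ∀ η > 0, KK w r c ≤ Real.log C' - k - σ + η := by
    intro η hη
    have e1 : Tendsto (fun u : ℝ => Real.log C' - k - comb w sc u -
        RR w r * (ell u - Real.log u)) atTop (𝓝 (Real.log C' - k - σ - RR w r * 0)) :=
      (hs.const_sub _).sub (ell_sub_log.const_mul _)
    rw [mul_zero, sub_zero] at e1
    obtain ⟨U, hU⟩ := eventually_atTop.1 ((e1.eventually (gt_mem_nhds (show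
      Real.log C' - k - σ < Real.log C' - k - σ + η by linarith))).and hu)
    obtain ⟨M', hM'⟩ := comb_sc_bd (w := w) Cs
    obtain ⟨K, hK0, hK⟩ := H.comb_loc (w := w) (max U 0)
    have hl := ell_nonneg (show 0 ≤ max U 0 from le_max_right _ _)
    have hV0 : 0 ≤ max U 0 := le_max_right _ _
    refine abel_le (f := ff w a sc r) (fun x hx => ff_LInt Cs hconv hx)
      (U := max U 0) (K := K + |M'| + |RR w r| * ell (max U 0)) hV0 (by positivity) hab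
      (fun u hu => ?_) (fun u hu hu' => ?_)
    · obtain ⟨a1, a2⟩ := hU u ((le_max_left _ _).trans hu.le)
      rw [← hR] at a2
      unfold ff
      linarith
    · have h3 := (abs_le.1 (hK u hu')).2
      have h7 : |RR w r * ell u| ≤ |RR w r| * ell (max U 0) := by
        rw [abs_mul, abs_of_nonneg (show 0 ≤ ell u by linarith [ell_nonneg hu.le])]
        exact mul_le_mul_of_nonneg_left (ell_mono hu.le hu') (abs_nonneg _)
      have h8 := (abs_le.1 h7).1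
      have h9 := (abs_le.1 (hM' u hu)).1
      have h10 := le_abs_self M'
      unfold ff
      linarith
  have h9 : KK w r c ≤ Real.log C' - k - σ := le_of_forall_pos_le_add hkey
  rw [← Real.log_le_log_iff hT hC, hTl]
  linarith

/-- no corrections -/
theorem cor_zero : Cor (fun (_ : ι) (_ : ℂ) => (0 : ℂ)) (fun (_ : ι) (_ : ℝ) => (0 : ℝ)) where
  meas := fun _ => measurable_const
  int := fun _ x _ => by
    unfold LInt
    simp
  bd := fun _ => ⟨0, fun u _ => by simp⟩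
  slow := fun _ ε hε => ⟨1, one_pos, 0, fun u v _ _ _ => by simpa using hε.le⟩
  lim := fun _ => by
    have : (fun x : ℝ => ((0 : ℂ)).re - x * lap (fun _ => (0 : ℝ)) x) = fun _ => 0 := by
      funext x
      unfold lap
      simp
    simp only [this]
    exact tendsto_const_nhds

theorem comb_zero_lim : Tendsto (comb w fun (_ : ι) (_ : ℝ) => (0 : ℝ)) atTop (𝓝 0) := by
  have : comb w (fun (_ : ι) (_ : ℝ) => (0 : ℝ)) = fun _ => 0 := by
    funext u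
    unfold comb
    simp
  rw [this]
  exact tendsto_const_nhds

end Pool.Agent.H21.RE
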