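import Pool.Agent.H21.RD.Cen

/-!
# Exact orders and limits for linear combinations, general local bounds
-/

set_option autoImplicit false

namespace Pool.Agent.H21.RE

open MeasureTheory Filter Topology Set
open Pool.Agent.H21.RC
open Pool.Agent.H21.RD (Cen)
open Pool.Agent.W263.BSD (LInt lap lapC lapC_ofReal lap_sub lap_add lap_const_mul ell ell_LInt
  ell_meas ell_nonneg ell_mono ell_double ell_slow ell_sqrt ell_lap_limit ex ex_meas ex_LInt
  sqrt_sub_exp slow_of_doubling bounded_of_slow abel_all abel_le tauber_limit doubling_of_slow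
  lap_mono lap_neg' one_LInt one_lap log_le_ell ell_le ell_sub_log)

variable {ι : Type} [Fintype ι]

/-- the data near the centre -/
structure NearG (a : ι → ℝ → ℝ) (Φ G : ι → ℂ → ℂ) (c0 : ℝ) (r : ι → ℕ) (c : ι → ℝ) : Prop where
  cen : Cen a Φ G c0 r c
  hloc : ∀ i, ∀ U : ℝ, ∃ K : ℝ, ∀ u, u ≤ U → |a i u| ≤ K

variable {a : ι → ℝ → ℝ} {Φ G : ι → ℂ → ℂ} {c0 : ℝ} {r : ι → ℕ} {c : ι → ℝ} {w : ι → ℝ}

theorem NearG.comb_loc (H : NearG a Φ G c0 r c) (U : ℝ) :
    ∃ K : ℝ, 0 ≤ K ∧ ∀ u, u ≤ U → |comb w a u| ≤ K := by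
  choose K hK using fun i => H.hloc i U
  have hK0 : ∀ i, 0 ≤ K i := fun i => (abs_nonneg _).trans (hK i U le_rfl)
  refine ⟨∑ i, |w i| * K i, Finset.sum_nonneg fun i _ => mul_nonneg (abs_nonneg _) (hK0 i),
    fun u hu => ?_⟩
  unfold comb
  refine (Finset.abs_sum_le_sum_abs _ _).trans (Finset.sum_le_sum fun i _ => ?_)
  rw [abs_mul]
  exact mul_le_mul_of_nonneg_left (hK i u hu) (abs_nonneg _)

/-- one-sided subexponential bounds imply convergence -/
theorem NearG.conv_upper (H : NearG a Φ G c0 r c) {w0 : ℝ} (hw0 : 0 ≤ w0)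
    (hsg : ∀ x : ℝ, w0 < x → 0 ≤ mult w Φ x)
    (h : ∀ ε > w0, ∀ᶠ u in atTop, comb w a u ≤ Real.exp (ε * u)) :
    ∀ x > w0, LInt (comb w a) x := by
  intro x hx
  obtain ⟨U, hU⟩ := eventually_atTop.mp (h ((w0 + x) / 2) (by linarith))
  set V : ℝ := max U 1 with hV
  obtain ⟨K, hK0, hK⟩ := H.comb_loc (w := w) V
  set κ : ℝ → ℝ := fun u => ex ((w0 + x) / 2) u + K * ex 0 u with hκ
  have hκm : Measurable κ := (ex_meas _).add ((ex_meas 0).const_mul _)
  have hκi : ∀ x' > (w0 + x) / 2, LInt κ x' := fun x' hx' =>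
    (ex_LInt hx').add ((ex_LInt (by linarith)).const_mul _)
  refine H.cen.F.conv (w0 := (w0 + x) / 2) (by linarith) hκm hκi (Or.inl rfl) (fun u hu => ?_)
    (fun y hy => ?_) x (by linarith)
  · rw [one_mul, hκ]
    simp only [ex, zero_mul, Real.exp_zero, mul_one]
    rcases le_or_gt V u with h2 | h2
    · have h3 := hU u ((le_max_left _ _).trans h2)
      linarith
    · have h3 := (abs_le.mp (hK u h2.le)).2
      have := Real.exp_pos ((w0 + x) / 2 * u)
      linarith
  · rw [one_mul]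
    exact hsg y (by linarith)

/-- two-sided subexponential bounds imply convergence without any condition on zeros -/
theorem NearG.conv_both (H : NearG a Φ G c0 r c) {w0 : ℝ} (hw0 : 0 ≤ w0)
    (h : ∀ ε > w0, ∀ᶠ u in atTop, |comb w a u| ≤ Real.exp (ε * u)) :
    ∀ x > w0, LInt (comb w a) x := by
  intro x hx
  obtain ⟨U, hU⟩ := eventually_atTop.mp (h ((w0 + x) / 2) (by linarith))
  set V : ℝ := max U 1 with hV
  obtain ⟨K, hK0, hK⟩ := H.comb_loc (w := w) V
  have hκi : LInt (fun u => ex ((w0 + x) / 2) u + K * ex 0 u) x :=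
    (ex_LInt (by linarith)).add ((ex_LInt (by linarith)).const_mul _)
  refine Pool.Agent.W263.BSD.LInt.of_bound (comb_meas H.cen.F) hκi fun u hu => ?_
  simp only [ex, zero_mul, Real.exp_zero, mul_one]
  rcases le_or_gt V u with h2 | h2
  · have h3 := hU u ((le_max_left _ _).trans h2)
    linarith
  · have h3 := hK u h2.le
    have := Real.exp_pos ((w0 + x) / 2 * u)
    linarith

/-- the transform of the combination minus the logarithm is bounded near the centre -/
theorem NearG.abel_near (H : NearG a Φ G c0 r c) (hconv : ∀ x > 0, LInt (comb w a) x) :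
    ∃ C : ℝ, ∀ᶠ x : ℝ in 𝓝[>] 0, |x * lap (fun u => comb w a u - RR w r * ell u) x| ≤ C := by
  obtain ⟨C, hC⟩ := H.cen.G_bound (w := w)
  set L := ∑ i, w i * Real.log (c i) with hL
  have h1 : ∀ᶠ x : ℝ in 𝓝[>] 0,
      |∑ i, w i * Real.log ‖Φ i x‖ - RR w r * Real.log x| ≤ |L| + 1 := by
    have := (H.cen.log_sum (w := w)).abs.eventually (gt_mem_nhds (show |L| < |L| + 1 by linarith))
    filter_upwards [this] with x hx using hx.le
  have h2 : ∀ᶠ x : ℝ in 𝓝[>] 0,
      |x * lap ell x + Real.log x| ≤ |Real.eulerMascheroniConstant| + 1 := by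
    have := ell_lap_limit.abs.eventually
      (gt_mem_nhds (show |-Real.eulerMascheroniConstant| < |Real.eulerMascheroniConstant| + 1 by
        rw [abs_neg]; linarith))
    filter_upwards [this] with x hx using hx.le
  refine ⟨C + (|L| + 1) + |RR w r| * (|Real.eulerMascheroniConstant| + 1), ?_⟩
  filter_upwards [hC, h1, h2, H.cen.lap_near hconv, self_mem_nhdsWithin] with x e1 e2 e3 e4 e5
  have hx : (0 : ℝ) < x := e5
  rw [lap_sub (hconv x hx) ((ell_LInt hx).const_mul _), lap_const_mul]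
  have e6 : x * (lap (comb w a) x - RR w r * lap ell x) =
      (∑ i, w i * (G i x).re - (∑ i, w i * Real.log ‖Φ i x‖ - RR w r * Real.log x)) -
        RR w r * (x * lap ell x + Real.log x) := by
    rw [mul_sub, e4]
    ring
  rw [e6]
  refine (abs_sub _ _).trans (add_le_add ((abs_sub _ _).trans (add_le_add e1 e2)) ?_)
  rw [abs_mul]
  exact mul_le_mul_of_nonneg_left e3 (abs_nonneg _)

/-- **Upper doubling implies the exact order.** -/
theorem NearG.order_upper (H : NearG a Φ G c0 r c) (hsg : ∀ x : ℝ, 0 < x → 0 ≤ mult w Φ x)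
    {K u0 : ℝ} (hK : 0 ≤ K) (hu0 : 1 ≤ u0)
    (h : ∀ u v, u0 ≤ u → u ≤ v → v ≤ 2 * u → comb w a v ≤ comb w a u + K) :
    (∀ x > 0, LInt (comb w a) x) ∧ ∃ M : ℝ, ∀ u, 0 < u → |comb w a u - RR w r * ell u| ≤ M := by
  have hu0' : 0 < u0 := by linarith
  have hs := slow_of_doubling hK hu0' h
  have hconv : ∀ x > 0, LInt (comb w a) x := by
    refine H.conv_upper le_rfl hsg fun ε hε => ?_
    filter_upwards [sqrt_sub_exp (comb w a u0) (3 * K * (1 / √u0)) hε, eventually_ge_atTop u0]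
      with u h1 h2
    refine le_trans (hs u0 u le_rfl h2) (le_trans (le_of_eq ?_) h1)
    rw [Real.sqrt_div' _ hu0'.le]
    ring
  refine ⟨hconv, ?_⟩
  have hfi : ∀ x > 0, LInt (fun u => comb w a u - RR w r * ell u) x := fun x hx =>
    (hconv x hx).sub ((ell_LInt hx).const_mul _)
  have hfm : Measurable (fun u => comb w a u - RR w r * ell u) :=
    (comb_meas H.cen.F).sub (ell_meas.const_mul _)
  obtain ⟨B, hB⟩ := abel_all hfm hfi (H.abel_near hconv)
  have hlog2 : 0 ≤ Real.log 2 := Real.log_nonneg (by norm_num)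
  have hK' : 0 ≤ K + |RR w r| * Real.log 2 := by positivity
  refine bounded_of_slow hfi hB hu0 (L := 3 * (K + |RR w r| * Real.log 2)) (by positivity) ?_ ?_
  · refine slow_of_doubling hK' hu0' fun u v h1 h2 h3 => ?_
    have e1 := h u v h1 h2 h3
    have e2 := (abs_le.1 (ell_abs_double (by linarith) h2 h3 (RR w r))).1
    linarith
  · intro U
    obtain ⟨K', hK0', hKK⟩ := H.comb_loc (w := w) U
    refine ⟨K' + |RR w r| * ell U, fun u hu huU => ?_⟩
    have e5 : |RR w r * ell u| ≤ |RR w r| * ell U := by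
      rw [abs_mul, abs_of_nonneg (show 0 ≤ ell u by linarith [ell_nonneg hu.le])]
      exact mul_le_mul_of_nonneg_left (ell_mono hu.le huU) (abs_nonneg _)
    exact (abs_sub _ _).trans (add_le_add (hKK u huU) e5)

/-- **Lower doubling implies the exact order.** -/
theorem NearG.order_lower (H : NearG a Φ G c0 r c) (hsg : ∀ x : ℝ, 0 < x → mult w Φ x ≤ 0)
    {K u0 : ℝ} (hK : 0 ≤ K) (hu0 : 1 ≤ u0)
    (h : ∀ u v, u0 ≤ u → u ≤ v → v ≤ 2 * u → comb w a u - K ≤ comb w a v) :
    (∀ x > 0, LInt (comb w a) x) ∧ ∃ M : ℝ, ∀ u, 0 < u → |comb w a u - RR w r * ell u| ≤ M := by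
  obtain ⟨h1, M, h2⟩ := H.order_upper (w := fun i => -w i) (fun x hx => by
    rw [mult_neg]; linarith [hsg x hx]) hK hu0 (fun u v e1 e2 e3 => by
    rw [comb_neg, comb_neg]
    linarith [h u v e1 e2 e3])
  refine ⟨fun x hx => ?_, M, fun u hu => ?_⟩
  · have := (h1 x hx).neg
    simp only [comb_neg, neg_neg] at this
    exact this
  · have := h2 u hu
    rw [comb_neg, RR_neg] at this
    rw [← abs_neg]
    refine le_of_eq_of_le ?_ this
    congr 1
    ring

variable {sc : ι → ℝ → ℝ}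

/-- **The Abel limit.** -/
theorem NearG.abel_limit (H : NearG a Φ G c0 r c) (C : Cor G sc)
    (hconv : ∀ x > 0, LInt (comb w a) x) :
    Tendsto (fun x : ℝ => x * lap (ff w a sc r) x) (𝓝[>] 0) (𝓝 (KK w r c)) := by
  have h1 : Tendsto (fun x : ℝ => ∑ i, w i * ((G i x).re - x * lap (sc i) x)) (𝓝[>] 0)
      (𝓝 (∑ i, w i * (0 : ℝ))) := tendsto_finsetSum _ fun i _ => (C.lim i).const_mul _
  have h2 := (h1.sub (H.cen.log_sum (w := w))).sub (ell_lap_limit.const_mul (RR w r))
  have h3 : ∑ i, w i * (0 : ℝ) - ∑ i, w i * Real.log (c i) -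
      RR w r * -Real.eulerMascheroniConstant = KK w r c := by
    unfold KK RR
    simp only [mul_zero, Finset.sum_const_zero, zero_sub, mul_neg, sub_neg_eq_add]
    rw [Finset.sum_mul, ← Finset.sum_neg_distrib, ← Finset.sum_add_distrib]
    exact Finset.sum_congr rfl fun i _ => by ring
  rw [h3] at h2
  refine h2.congr' ?_
  filter_upwards [H.cen.lap_near hconv, self_mem_nhdsWithin] with x e1 e2
  have hx : (0 : ℝ) < x := e2
  have e3 : lap (ff w a sc r) x = lap (comb w a) x - lap (comb w sc) x - RR w r * lap ell x := by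
    unfold ff
    rw [lap_sub ((hconv x hx).sub (comb_sc_LInt C hx)) ((ell_LInt hx).const_mul _),
      lap_sub (hconv x hx) (comb_sc_LInt C hx), lap_const_mul]
  rw [e3, comb_sc_lap C hx, mul_sub, mul_sub, e1]
  have e4 : ∑ i, w i * ((G i x).re - x * lap (sc i) x) =
      ∑ i, w i * (G i x).re - x * ∑ i, w i * lap (sc i) x := by
    rw [Finset.mul_sum, ← Finset.sum_sub_distrib]
    exact Finset.sum_congr rfl fun i _ => by ring
  rw [e4]
  ring

/-- **Limits from upper slow variation.** -/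
theorem NearG.lead_upper (H : NearG a Φ G c0 r c) (C : Cor G sc)
    (hsg : ∀ x : ℝ, 0 < x → 0 ≤ mult w Φ x)
    (h : ∀ ε > 0, ∃ δ > 0, ∃ u0 : ℝ, ∀ u v, u0 ≤ u → u ≤ v → v ≤ (1 + δ) * u →
      comb w a v ≤ comb w a u + ε) :
    Tendsto (ff w a sc r) atTop (𝓝 (KK w r c)) := by
  obtain ⟨K, u0, hK, hu0, hd⟩ := doubling_of_slow h
  obtain ⟨hconv, M, hM⟩ := H.order_upper hsg hK hu0 hd
  obtain ⟨M', hM'⟩ := comb_sc_bd (w := w) C
  have hmeas : Measurable (ff w a sc r) :=
    ((comb_meas H.cen.F).sub (comb_sc_meas C)).sub (ell_meas.const_mul _)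
  refine tauber_limit hmeas
    (fun x hx => ff_LInt C hconv hx) (M := M + M') (fun u hu => ?_) (H.abel_limit C hconv) ?_
  · have h1 := hM u hu
    have h2 := hM' u hu
    have h3 : ff w a sc r u = (comb w a u - RR w r * ell u) - comb w sc u := by unfold ff; ring
    rw [h3]
    exact (abs_sub _ _).trans (add_le_add h1 h2)
  · intro ε hε
    obtain ⟨δ1, hδ1, u1, h1⟩ := h (ε / 3) (by positivity)
    obtain ⟨δ2, hδ2, u2, h2⟩ := comb_sc_slow (w := w) C (show 0 < ε / 3 by positivity)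
    have hδ3 : 0 < ε / (3 * (|RR w r| + 1)) := by positivity
    refine ⟨min (min δ1 δ2) (ε / (3 * (|RR w r| + 1))), lt_min (lt_min hδ1 hδ2) hδ3,
      max 1 (max u1 u2), fun u v h3 h4 h5 => ?_⟩
    have hu1 : 1 ≤ u := (le_max_left _ _).trans h3
    have hu0 : 0 < u := by linarith
    have m1 : min (min δ1 δ2) (ε / (3 * (|RR w r| + 1))) ≤ δ1 :=
      (min_le_left _ _).trans (min_le_left _ _)
    have m2 : min (min δ1 δ2) (ε / (3 * (|RR w r| + 1))) ≤ δ2 :=
      (min_le_left _ _).trans (min_le_right _ _)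
    have m3 : min (min δ1 δ2) (ε / (3 * (|RR w r| + 1))) ≤ ε / (3 * (|RR w r| + 1)) :=
      min_le_right _ _
    have e1 := h1 u v (((le_max_left _ _).trans (le_max_right _ _)).trans h3) h4
      (h5.trans (mul_le_mul_of_nonneg_right (by linarith) hu0.le))
    have e2 := h2 u v (((le_max_right _ _).trans (le_max_right _ _)).trans h3) h4
      (h5.trans (mul_le_mul_of_nonneg_right (by linarith) hu0.le))
    have e3 := (abs_le.mp e2).1
    have e4 := ell_slow hδ3 hu0 h4
      (h5.trans (mul_le_mul_of_nonneg_right (by linarith) hu0.le))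
    have e5 := ell_mono hu0.le h4
    have e6 : |RR w r * ell v - RR w r * ell u| ≤ ε / 3 := by
      rw [← mul_sub, abs_mul, abs_of_nonneg (show 0 ≤ ell v - ell u by linarith)]
      calc |RR w r| * (ell v - ell u) ≤ |RR w r| * (ε / (3 * (|RR w r| + 1))) :=
            mul_le_mul_of_nonneg_left (by linarith) (abs_nonneg _)
        _ ≤ ε / 3 := by
          rw [mul_div_assoc', div_le_div_iff₀ (by positivity) (by positivity)]
          nlinarith [abs_nonneg (RR w r)]
    have e7 := (abs_le.1 e6).1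
    unfold ff
    linarith

/-- **Limits from lower slow variation.** -/
theorem NearG.lead_lower (H : NearG a Φ G c0 r c) (C : Cor G sc)
    (hsg : ∀ x : ℝ, 0 < x → mult w Φ x ≤ 0)
    (h : ∀ ε > 0, ∃ δ > 0, ∃ u0 : ℝ, ∀ u v, u0 ≤ u → u ≤ v → v ≤ (1 + δ) * u →
      comb w a u - ε ≤ comb w a v) :
    Tendsto (ff w a sc r) atTop (𝓝 (KK w r c)) := by
  have h1 := H.lead_upper (w := fun i => -w i) C (fun x hx => by
    rw [mult_neg]; linarith [hsg x hx]) (fun ε hε => by
      obtain ⟨δ, hδ, u0, h2⟩ := h ε hε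
      refine ⟨δ, hδ, u0, fun u v e1 e2 e3 => ?_⟩
      rw [comb_neg, comb_neg]
      linarith [h2 u v e1 e2 e3])
  rw [KK_neg] at h1
  have h2 := h1.neg
  rw [neg_neg] at h2
  refine h2.congr fun u => ?_
  rw [ff_neg, neg_neg]

/-! ### bounds by powers of the logarithm -/

theorem ell_close : ∀ᶠ u : ℝ in atTop, |ell u - Real.log u| ≤ 1 := by
  have := ell_sub_log.abs.eventually (gt_mem_nhds (show |(0 : ℝ)| < 1 by norm_num))
  filter_upwards [this] with u hu using hu.le

/-- one-sided bounds by powers of the logarithm -/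
theorem NearG.kappa_bound (H : NearG a Φ G c0 r c) {ρ M : ℝ}
    (h : ∀ᶠ u : ℝ in atTop, comb w a u ≤ ρ * Real.log u + M) :
    ∃ B : ℝ, 0 ≤ B ∧ ∀ u, 0 < u → comb w a u ≤ ρ * ell u + B := by
  obtain ⟨U, hU⟩ := eventually_atTop.1 (h.and ell_close)
  set V : ℝ := max U 1 with hV
  have hV1 : 1 ≤ V := le_max_right _ _
  have hVl := ell_nonneg (show 0 ≤ V by linarith)
  obtain ⟨K, hK0, hK⟩ := H.comb_loc (w := w) V
  refine ⟨max (|ρ| + M) 0 + (K + |ρ| * ell V), by positivity, fun u hu => ?_⟩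
  have hm := le_max_left (|ρ| + M) 0
  have hm0 := le_max_right (|ρ| + M) 0
  have hn : 0 ≤ K + |ρ| * ell V := by positivity
  rcases le_or_gt V u with h2 | h2
  · obtain ⟨e1, e2⟩ := hU u ((le_max_left _ _).trans h2)
    have e4 : ρ * Real.log u ≤ ρ * ell u + |ρ| := by
      have e5 : |ρ * (Real.log u - ell u)| ≤ |ρ| := by
        rw [abs_mul]
        refine mul_le_of_le_one_right (abs_nonneg _) ?_
        rwa [abs_sub_comm]
      have e6 := (abs_le.1 e5).2
      linarith
    linarith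
  · have h3 := (abs_le.1 (hK u h2.le)).2
    have h7 : |ρ * ell u| ≤ |ρ| * ell V := by
      rw [abs_mul, abs_of_nonneg (show 0 ≤ ell u by linarith [ell_nonneg hu.le])]
      exact mul_le_mul_of_nonneg_left (ell_mono hu.le h2.le) (abs_nonneg _)
    have h8 := (abs_le.1 h7).1
    linarith

theorem kappa_sub {f : ℝ → ℝ} {ρ B : ℝ} (h : ∀ u, 0 < u → f u ≤ ρ * ell u + B) :
    ∀ ε > 0, ∀ᶠ u in atTop, f u ≤ Real.exp (ε * u) := by
  intro ε hε
  filter_upwards [sqrt_sub_exp (|ρ| + B) (2 * |ρ|) hε, eventually_ge_atTop 2] with u h1 h2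
  have h3 := h u (by linarith)
  have h4 := ell_sqrt h2
  have h5 := ell_nonneg (show 0 ≤ u by linarith)
  have h6 : ρ * ell u ≤ |ρ| * (2 * √u + 1) :=
    (mul_le_mul_of_nonneg_right (le_abs_self ρ) (by linarith)).trans
      (mul_le_mul_of_nonneg_left h4 (abs_nonneg _))
  linarith

theorem kappa_lap (ρ B : ℝ) : ∃ C : ℝ, ∀ᶠ x : ℝ in 𝓝[>] 0,
    x * lap (fun u => ρ * ell u + B * 1) x + ρ * Real.log x ≤ C := by
  have h2 : ∀ᶠ x : ℝ in 𝓝[>] 0,
      |x * lap ell x + Real.log x| ≤ |Real.eulerMascheroniConstant| + 1 := by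
    have := ell_lap_limit.abs.eventually
      (gt_mem_nhds (show |-Real.eulerMascheroniConstant| < |Real.eulerMascheroniConstant| + 1 by
        rw [abs_neg]; linarith))
    filter_upwards [this] with x hx using hx.le
  refine ⟨|ρ| * (|Real.eulerMascheroniConstant| + 1) + B, ?_⟩
  filter_upwards [h2, self_mem_nhdsWithin] with x e1 e2
  have hx : (0 : ℝ) < x := e2
  rw [lap_add ((ell_LInt hx).const_mul _) ((one_LInt hx).const_mul _), lap_const_mul, lap_const_mul,
    one_lap hx]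
  have e3 : x * (ρ * lap ell x + B * (1 / x)) + ρ * Real.log x =
      ρ * (x * lap ell x + Real.log x) + B := by
    field_simp
    ring
  rw [e3]
  have e4 : |ρ * (x * lap ell x + Real.log x)| ≤ |ρ| * (|Real.eulerMascheroniConstant| + 1) := by
    rw [abs_mul]
    exact mul_le_mul_of_nonneg_left e1 (abs_nonneg _)
  linarith [(abs_le.1 e4).2]

theorem NearG.order_le_of (H : NearG a Φ G c0 r c) (hconv : ∀ x > 0, LInt (comb w a) x)
    {ρ B : ℝ} (h : ∀ u, 0 < u → comb w a u ≤ ρ * ell u + B) : RR w r ≤ ρ := by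
  obtain ⟨C, hC⟩ := kappa_lap ρ B
  exact H.cen.order_le (κ := fun u => ρ * ell u + B * 1) hconv (fun x hx =>
    ((ell_LInt hx).const_mul _).add ((one_LInt hx).const_mul _)) (fun u hu => by
      rw [mul_one]; exact h u hu) hC

/-- the exact order from a two-sided bound -/
theorem NearG.order_eq_of (H : NearG a Φ G c0 r c) {ρ M : ℝ}
    (h : ∀ᶠ u : ℝ in atTop, |comb w a u - ρ * Real.log u| ≤ M) :
    (∀ x > 0, LInt (comb w a) x) ∧ RR w r = ρ := by
  obtain ⟨B, -, hB⟩ := H.kappa_bound (w := w) (ρ := ρ) (M := M) (h.mono fun x hx => by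
    linarith [(abs_le.1 hx).2])
  obtain ⟨B', -, hB'⟩ := H.kappa_bound (w := fun i => -w i) (ρ := -ρ) (M := M)
    (h.mono fun x hx => by
      rw [comb_neg]
      linarith [(abs_le.1 hx).1])
  have h1 : ∀ x > 0, LInt (comb w a) x := by
    refine H.conv_both le_rfl fun ε hε => ?_
    filter_upwards [kappa_sub hB ε hε, kappa_sub hB' ε hε] with u e1 e2
    rw [comb_neg] at e2
    rw [abs_le]
    constructor <;> linarith
  refine ⟨h1, le_antisymm (H.order_le_of h1 hB) ?_⟩
  have h2 := H.order_le_of (w := fun i => -w i) (fun x hx => by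
    have e : comb (fun i => -w i) a = fun u => -comb w a u := funext fun u => comb_neg _ _ _
    rw [e]
    exact (h1 x hx).neg) hB'
  rw [RR_neg] at h2
  linarith

end Pool.Agent.H21.RE
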